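import Pool.Agent.Helper36.LX.Sheet
open MeasureTheory Metric Set Filter Topology
open scoped ENNReal NNReal

/-! # LX, row LOW (copy of helper61's LG LOW) -/

namespace H11ST
namespace LX
open LG

theorem low11 : LX_LOW := by
  intro hCHN d n p i0 hd T hT hTA L hL
  by_cases hfin : μH[1] T = ∞
  · rw [hfin]; exact le_top
  have hAf : (range p).Finite := finite_range _
  have hX : μH[1] (T ∪ range p) ≤ μH[1] T := by
    refine (measure_union_le _ _).trans ?_
    rw [fin_measure_zero hAf, add_zero]
  have hXfin : μH[1] (T ∪ range p) ≠ ∞ := ne_top_of_le_ne_top hfin hX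
  refine le_trans ?_ hX
  rw [ENNReal.ofReal_le_iff_le_toReal hXfin]
  have hne : (T ∪ range p).Nonempty := ⟨p i0, Or.inr (mem_range_self i0)⟩
  have hcl : IsClosed (T ∪ range p) := hT.union hAf.isClosed
  have hcomp := compact_of_conn hTA.isPreconnected hcl hne hXfin
  refine le_of_forall_pos_le_add fun η hη => ?_
  have hdr : (0 : ℝ) < (n : ℝ) + 2 := by positivity
  obtain ⟨U, s, hU, hXU, hs⟩ := exists_chain hcomp hTA.isPreconnected hne hXfin
    (show (0 : ℝ) < η / ((n : ℝ) + 2) by positivity)
  have hcard : (Finset.univ.erase i0).card = n - 1 := by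
    rw [Finset.card_erase_of_mem (Finset.mem_univ _), Finset.card_univ, Fintype.card_fin]
  have hSne : (Finset.univ.erase i0).Nonempty := by
    rw [← Finset.card_pos, hcard]
    omega
  obtain ⟨t, hok, hlv, hle⟩ := hCHN d n _ s U hU p (Finset.univ.erase i0) hSne
    (fun i _ => hXU (Or.inr (mem_range_self i))) (p i0) (hXU (Or.inr (mem_range_self i0)))
  have h1 := hL t ⟨hok, hlv⟩
  unfold tot at h1
  rw [hcard, Nat.cast_sub (by omega)] at hle
  have h2 : ((n : ℝ) + 2) * (η / ((n : ℝ) + 2)) = η := by field_simp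
  have h3 : 0 < η / ((n : ℝ) + 2) := by positivity
  push_cast at hle
  nlinarith

end LX
end H11ST
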