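import Pool.Agent.Helper11.LX.Gv
import Pool.Agent.Helper11.LX.Low
import Pool.Agent.Helper12.LX.TV
import Pool.Agent.Helper22.LX.UP
import Pool.Agent.Helper27.LX.LF
import Pool.Agent.Helper27.LX.LFR
import Pool.Agent.Helper36.LX.Upp
import Pool.Agent.Helper50.LX.CHN
import Pool.Agent.Helper53.LX.SUM
import Pool.Agent.Helper55.LX.COO
import Pool.Agent.Helper66.LX.FIN
import Pool.Agent.Helper74.LX.ADM
import Pool.Agent.Helper78.LX.PRJ
import Pool.Agent.Helper80.LX.CMP
import Pool.Agent.Helper88.LX.VAR
import Pool.Agent.Helper95.LX.ED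
import Pool.Agent.Helper94.LG.LXCNTfin

/-!
# LX: assembly of the lower bound
-/

namespace H11ST
namespace LX

/-- exponential growth -/
theorem lower11 : LX_FIN :=
  fin chn low11 prj cmp adm cnt var tv coo ed lfr lf up sum gv

end LX
end H11ST
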