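import Pool.Agent.H11ST.Square
open Real Finset

/-!
# LX, row CODE: exponentially many nearly orthogonal unit vectors
-/

namespace H11ST
namespace LX

/-- the sign of a bit -/
def sg (b : Bool) : ℝ := if b then 1 else -1

theorem sg_sq (b : Bool) : sg b * sg b = 1 := by cases b <;> norm_num [sg]

/-- scaled inner product of two sign vectors -/
noncomputable def ip {d : ℕ} (s c : Fin d → Bool) : ℝ := ∑ i, sg (s i) * sg (c i)

theorem mgf {d : ℕ} (c : Fin d → Bool) (l : ℝ) :
    ∑ s : Fin d → Bool, exp (l * ip s c) ≤ 2 ^ d * exp (l ^ 2 * d / 2) := by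
  have h1 : ∀ s : Fin d → Bool, exp (l * ip s c) = ∏ i, exp (l * (sg (s i) * sg (c i))) := by
    intro s
    rw [ip, mul_sum, exp_sum]
  have h2 : ∑ s : Fin d → Bool, ∏ i, exp (l * (sg (s i) * sg (c i))) =
      ∏ i, ∑ b : Bool, exp (l * (sg b * sg (c i))) := by
    rw [Finset.prod_univ_sum, Fintype.piFinset_univ]
  have h3 : ∀ i, ∑ b : Bool, exp (l * (sg b * sg (c i))) ≤ 2 * exp (l ^ 2 / 2) := by
    intro i
    have h4 : ∑ b : Bool, exp (l * (sg b * sg (c i))) = 2 * cosh l := by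
      rw [cosh_eq, Fintype.sum_bool]
      cases c i <;> simp [sg] <;> ring
    rw [h4]
    exact mul_le_mul_of_nonneg_left (cosh_le_exp_half_sq l) (by norm_num)
  calc ∑ s : Fin d → Bool, exp (l * ip s c)
      = ∏ i, ∑ b : Bool, exp (l * (sg b * sg (c i))) := by
        rw [← h2]; exact sum_congr rfl fun s _ => h1 s
    _ ≤ ∏ _i : Fin d, 2 * exp (l ^ 2 / 2) :=
        prod_le_prod (fun i _ => sum_nonneg fun b _ => (exp_pos _).le) fun i _ => h3 i
    _ = 2 ^ d * exp (l ^ 2 * d / 2) := by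
        rw [prod_const, card_univ, Fintype.card_fin, mul_pow, ← exp_nat_mul]
        congr 2
        ring

theorem bad_card {d : ℕ} (c : Fin d → Bool) {g : ℝ} (hg : 0 < g) :
    (({s : Fin d → Bool | g * d < |ip s c|} : Finset (Fin d → Bool)).card : ℝ) ≤
      2 * (2 ^ d * exp (-(g ^ 2 * d / 2))) := by
  have h1 : ∀ s ∈ ({s : Fin d → Bool | g * d < |ip s c|} : Finset (Fin d → Bool)),
      (1 : ℝ) ≤ (exp (g * ip s c) + exp (-g * ip s c)) * exp (-(g ^ 2 * d)) := by
    intro s hs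
    rw [mem_filter] at hs
    have hs2 := hs.2
    rw [add_mul, ← exp_add, ← exp_add]
    rcases lt_abs.1 hs2 with h | h
    · have : (0 : ℝ) ≤ g * ip s c + -(g ^ 2 * d) := by nlinarith
      have h2 := one_le_exp this
      have h3 := exp_pos (-g * ip s c + -(g ^ 2 * d))
      linarith
    · have : (0 : ℝ) ≤ -g * ip s c + -(g ^ 2 * d) := by nlinarith
      have h2 := one_le_exp this
      have h3 := exp_pos (g * ip s c + -(g ^ 2 * d))
      linarith
  have h2 : (({s : Fin d → Bool | g * d < |ip s c|} : Finset (Fin d → Bool)).card : ℝ) ≤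
      ∑ s : Fin d → Bool, (exp (g * ip s c) + exp (-g * ip s c)) * exp (-(g ^ 2 * d)) := by
    calc _ = ∑ s ∈ ({s : Fin d → Bool | g * d < |ip s c|} : Finset (Fin d → Bool)), (1 : ℝ) := by
          simp
      _ ≤ ∑ s ∈ ({s : Fin d → Bool | g * d < |ip s c|} : Finset (Fin d → Bool)),
          (exp (g * ip s c) + exp (-g * ip s c)) * exp (-(g ^ 2 * d)) := sum_le_sum h1
      _ ≤ _ := sum_le_sum_of_subset_of_nonneg (subset_univ _) fun s _ _ => by positivity
  refine h2.trans ?_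
  rw [← sum_mul, sum_add_distrib]
  have h3 := mgf c g
  have h4 := mgf c (-g)
  have h5 : (-g) ^ 2 * (d : ℝ) / 2 = g ^ 2 * d / 2 := by ring
  rw [h5] at h4
  have h6 : exp (g ^ 2 * d / 2) * exp (-(g ^ 2 * d)) = exp (-(g ^ 2 * d / 2)) := by
    rw [← exp_add]; congr 1; ring
  calc _ ≤ (2 ^ d * exp (g ^ 2 * d / 2) + 2 ^ d * exp (g ^ 2 * d / 2)) * exp (-(g ^ 2 * d)) :=
        mul_le_mul_of_nonneg_right (add_le_add h3 h4) (exp_pos _).le
    _ = 2 * (2 ^ d * (exp (g ^ 2 * d / 2) * exp (-(g ^ 2 * d)))) := by ring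
    _ = _ := by rw [h6]

theorem ip_self {d : ℕ} (s : Fin d → Bool) : ip s s = d := by
  rw [ip, sum_congr rfl fun i _ => sg_sq (s i)]
  simp

/-- a large family of sign vectors -/
theorem family {d : ℕ} (hd : 1 ≤ d) {g : ℝ} (hg : 0 < g) (hg1 : g < 1) :
    ∃ C : Finset (Fin d → Bool), (∀ s ∈ C, ∀ c ∈ C, s ≠ c → |ip s c| ≤ g * d) ∧
      exp (g ^ 2 / 2 * d) ≤ 2 * C.card := by
  classical
  set F : Finset (Finset (Fin d → Bool)) :=
    univ.filter fun C => ∀ s ∈ C, ∀ c ∈ C, s ≠ c → |ip s c| ≤ g * d with hF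
  have hne : F.Nonempty := ⟨∅, by simp [hF]⟩
  obtain ⟨C, hC, hmax⟩ := exists_max_image F card hne
  have hC2 := (mem_filter.1 hC).2
  have hd0 : (0 : ℝ) < d := by exact_mod_cast hd
  -- every sign vector is bad for some element of `C`
  have hcov : (univ : Finset (Fin d → Bool)) ⊆
      C.biUnion fun c => ({s : Fin d → Bool | g * d < |ip s c|} : Finset (Fin d → Bool)) := by
    intro s _
    by_contra hs
    rw [mem_biUnion] at hs
    push Not at hs
    have hs3 : ∀ c ∈ C, |ip s c| ≤ g * d := by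
      intro c hc
      have := hs c hc
      rw [mem_filter, not_and] at this
      exact not_lt.1 (this (mem_univ _))
    have hsC : s ∉ C := by
      intro h
      have h1 := hs3 s h
      rw [ip_self, abs_of_nonneg hd0.le] at h1
      nlinarith
    have h1 : insert s C ∈ F := by
      rw [hF, mem_filter]
      refine ⟨mem_univ _, fun a ha b hb hab => ?_⟩
      rw [mem_insert] at ha hb
      rcases ha with rfl | ha <;> rcases hb with rfl | hb
      · exact absurd rfl hab
      · exact hs3 b hb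
      · have : ip a b = ip b a := by
          rw [ip, ip]; exact sum_congr rfl fun i _ => mul_comm _ _
        rw [this]; exact hs3 a ha
      · exact hC2 a ha b hb hab
    have h2 := hmax _ h1
    rw [card_insert_of_notMem hsC] at h2
    omega
  refine ⟨C, hC2, ?_⟩
  have h1 : (2 : ℝ) ^ d ≤ C.card * (2 * (2 ^ d * exp (-(g ^ 2 * d / 2)))) := by
    have h3 := (card_le_card hcov).trans card_biUnion_le
    have h4 : (univ : Finset (Fin d → Bool)).card = 2 ^ d := by simp
    rw [h4] at h3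
    have h5 : ((2 ^ d : ℕ) : ℝ) ≤ ((∑ c ∈ C,
        ({s : Fin d → Bool | g * d < |ip s c|} : Finset (Fin d → Bool)).card : ℕ) : ℝ) := by
      exact_mod_cast h3
    push_cast at h5
    refine h5.trans ?_
    calc _ ≤ ∑ _c ∈ C, 2 * (2 ^ d * exp (-(g ^ 2 * d / 2))) :=
          sum_le_sum fun c _ => bad_card c hg
      _ = _ := by rw [sum_const, nsmul_eq_mul]
  have h6 : exp (-(g ^ 2 * d / 2)) * exp (g ^ 2 / 2 * d) = 1 := by
    rw [← exp_add, ← exp_zero]; congr 1; ring
  have h7 : (0 : ℝ) < 2 ^ d := by positivity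
  have h8 : (2 : ℝ) ^ d * exp (g ^ 2 / 2 * d) ≤ 2 ^ d * (2 * C.card) := by
    calc (2 : ℝ) ^ d * exp (g ^ 2 / 2 * d)
        ≤ C.card * (2 * (2 ^ d * exp (-(g ^ 2 * d / 2)))) * exp (g ^ 2 / 2 * d) :=
          mul_le_mul_of_nonneg_right h1 (exp_pos _).le
      _ = 2 ^ d * (2 * C.card) * (exp (-(g ^ 2 * d / 2)) * exp (g ^ 2 / 2 * d)) := by ring
      _ = _ := by rw [h6, mul_one]
  exact le_of_mul_le_mul_left h8 h7

/-- the unit vector of a sign vector -/
noncomputable def sv {d : ℕ} (s : Fin d → Bool) : E d := WithLp.toLp 2 fun i => sg (s i) / √d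

theorem inner_sv {d : ℕ} (hd : 1 ≤ d) (s c : Fin d → Bool) : inner ℝ (sv s) (sv c) = ip s c / d := by
  have hd0 : (0 : ℝ) < d := by exact_mod_cast hd
  rw [PiLp.inner_apply, ip, sum_div]
  refine sum_congr rfl fun i _ => ?_
  simp only [sv, RCLike.inner_apply, conj_trivial]
  rw [div_mul_div_comm, Real.mul_self_sqrt hd0.le, mul_comm]

theorem norm_sv {d : ℕ} (hd : 1 ≤ d) (s : Fin d → Bool) : ‖sv s‖ = 1 := by
  have hd0 : (0 : ℝ) < d := by exact_mod_cast hd
  have h := inner_sv hd s s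
  rw [ip_self, div_self hd0.ne', real_inner_self_eq_norm_sq] at h
  have h0 := norm_nonneg (sv s)
  nlinarith

/-- (CODE) exponentially many nearly orthogonal unit vectors -/
theorem code {g : ℝ} (hg : 0 < g) (hg1 : g < 1) {d : ℕ} (hd : 1 ≤ d) :
    ∃ (n : ℕ) (p : Fin n → E d), exp (g ^ 2 / 2 * d) ≤ 2 * n ∧ (∀ i, ‖p i‖ = 1) ∧
      ∀ i j, i ≠ j → |inner ℝ (p i) (p j)| ≤ g := by
  obtain ⟨C, hC, hcard⟩ := family hd hg hg1
  have hd0 : (0 : ℝ) < d := by exact_mod_cast hd
  refine ⟨C.card, fun i => sv (C.equivFin.symm i : Fin d → Bool), hcard, fun i => norm_sv hd _,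
    fun i j hij => ?_⟩
  have h1 := hC _ (C.equivFin.symm i).2 _ (C.equivFin.symm j).2 (by
    intro h
    exact hij (C.equivFin.symm.injective (Subtype.ext h)))
  rw [inner_sv hd, abs_div, abs_of_pos hd0, div_le_iff₀ hd0]
  exact h1

end LX
end H11ST
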