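import Pool.Agent.Helper11.LX.Code
import Pool.Agent.Helper36.LX.Sheet
open Real

/-!
# LX, row GV
-/

namespace H11ST
namespace LX

theorem gv : LX_GV := by
  intro d hd
  obtain ⟨n, p, h1, h2, h3⟩ := code (g := e0) (by norm_num [e0]) (by norm_num [e0]) hd
  exact ⟨n, p, ⟨h2, h3⟩, by linarith⟩

end LX
end H11ST
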