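import Pool.Agent.H11ST.Main
open MeasureTheory Metric Set Filter Topology
open scoped ENNReal NNReal

/-!
# LX, row UPB: an upper bound of the form `(d / (1 - t)) ^ (8 d)` for all `d` and `t`
-/

namespace H11ST
namespace LX

/-- one doubling of the length -/
theorem dbl {d : ℕ} {A S : Set (E d)} {x : E d} {r : ℝ} (L : LocAdm A S x r)
    (hA : IsClosed A) (hd : 1 ≤ d) {K : ℕ} (hK1 : 1 ≤ K) {a : ℝ} (h0 : 0 < a)
    (hb : a + 2 * √d * r / K < r)
    (hne : ∀ ρ, a ≤ ρ → ρ < r → (S ∩ sphere x ρ).Nonempty)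
    (hlen : 2 * (3 * (K : ℝ)) ^ d * r ≤ len S x a) :
    2 * len S x a ≤ len S x (a + 2 * √d * r / K) := by
  have hr := L.rpos
  have hdpos : (0 : ℝ) < √d := Real.sqrt_pos.2 (by exact_mod_cast hd)
  have hKpos : (0 : ℝ) < K := by exact_mod_cast hK1
  set b := a + 2 * √d * r / K with hbdef
  have hpos : 0 < 2 * √d * r / K := by positivity
  have hab' : a ≤ b := by linarith
  set M : ℝ := len S x a * K / (2 * √d * r) with hM
  have hlen0 : 0 ≤ len S x a := len_nonneg _ _ _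
  have hcount : ∀ ρ ∈ Ioo a b, ((⌈M⌉₊ : ℕ) : ℕ∞) ≤ (S ∩ sphere x ρ).encard := by
    intro ρ hρ
    have hρ0 : 0 < ρ := by linarith [hρ.1]
    have hρr : ρ < r := hρ.2.trans hb
    by_cases htop : (S ∩ sphere x ρ).encard = ⊤
    · rw [htop]; exact le_top
    obtain ⟨n, hn⟩ := ENat.ne_top_iff_exists.1 htop
    rw [← hn]
    have hn1 : 1 ≤ n := by
      have := hne ρ hρ.1.le hρr
      rw [← Set.encard_pos, ← hn] at this
      exact_mod_cast this
    have h1 := L.len_cells hA hρ0 hρr hK1 hn1 hn.symm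
    have h2 : len S x a ≤ len S x ρ := by
      have := L.len_growth hρ.1.le hρr.le 0 (fun _ _ => by simp)
      simpa using this
    have h3 : (((2 * K + 1 : ℕ) : ℝ)) ^ d ≤ (3 * K) ^ d := by
      refine pow_le_pow_left₀ (by positivity) ?_ d
      push_cast
      have : (1 : ℝ) ≤ K := by exact_mod_cast hK1
      linarith
    have h5 : ((2 * K + 1 : ℕ) : ℝ) ^ d * ρ ≤ (3 * K) ^ d * r :=
      mul_le_mul h3 hρr.le hρ0.le (by positivity)
    have h6 : (n : ℝ) * (√d * (ρ / K)) ≤ n * (√d * (r / K)) := by gcongr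
    have h7 : len S x a / 2 ≤ n * (√d * (r / K)) := by linarith
    have h8 : M ≤ n := by
      rw [hM, div_le_iff₀ (by positivity)]
      have h9 : (n : ℝ) * (√d * (r / K)) = (n * (√d * r)) / K := by ring
      rw [h9, le_div_iff₀ hKpos] at h7
      nlinarith
    exact_mod_cast Nat.ceil_le.2 h8
  have h1 := L.len_growth hab' hb.le _ hcount
  have h2 : M ≤ (⌈M⌉₊ : ℝ) := Nat.le_ceil M
  have h3 : M * (b - a) ≤ (⌈M⌉₊ : ℝ) * (b - a) := mul_le_mul_of_nonneg_right h2 (by linarith)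
  have h4 : M * (b - a) = len S x a := by
    rw [hM, hbdef]; field_simp; ring
  linarith

theorem blowup2 {d : ℕ} {A S : Set (E d)} {x : E d} {r : ℝ} (L : LocAdm A S x r)
    (hA : IsClosed A) {ρ₀ : ℝ} (h0 : 0 < ρ₀) (K₀ : ℕ) (hK₀ : 1 ≤ K₀)
    (hstep : ρ₀ + 4 * d * √d * r / K₀ < r)
    (hne : ∀ ρ, ρ₀ ≤ ρ → ρ < r → (S ∩ sphere x ρ).Nonempty) (hd : 1 ≤ d) :
    len S x ρ₀ < 2 * (3 * K₀) ^ d * r := by
  by_contra hcon
  push Not at hcon
  have hr := L.rpos
  have hK₀' : (0 : ℝ) < K₀ := by exact_mod_cast hK₀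
  have hdpos : (0 : ℝ) < √d := Real.sqrt_pos.2 (by exact_mod_cast hd)
  have hd0 : (0 : ℝ) < d := by exact_mod_cast hd
  set B : ℝ := 4 * d * √d * r / K₀ with hB
  have hBpos : 0 < B := by positivity
  have hr0r : ρ₀ < r := by linarith
  have key : ∀ j : ℕ, 2 * (3 * (2 ^ j * K₀)) ^ d * r ≤ len S x (ρ₀ + B * (1 - 1 / 2 ^ j)) := by
    intro j
    induction j with
    | zero => simpa using hcon
    | succ j ih =>
      have h2j : (0 : ℝ) < 2 ^ j := by positivity
      have hfrac : (0 : ℝ) < 1 / 2 ^ j := by positivity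
      have hfrac1 : (1 : ℝ) / 2 ^ j ≤ 1 := by
        rw [div_le_one h2j]; exact one_le_pow₀ (by norm_num)
      have hhalf : (1 : ℝ) / 2 ^ (j + 1) = (1 / 2 ^ j) / 2 := by rw [pow_succ]; field_simp
      set a := ρ₀ + B * (1 - 1 / 2 ^ j) with ha
      set b := ρ₀ + B * (1 - 1 / 2 ^ (j + 1)) with hb
      have hab : b - a = B * (1 / 2 ^ j) / 2 := by rw [ha, hb, hhalf]; ring
      have ha0 : ρ₀ ≤ a := by
        have : 0 ≤ B * (1 - 1 / 2 ^ j) := mul_nonneg hBpos.le (by linarith)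
        linarith
      have hbr : b < r := by
        have : B * (1 - 1 / 2 ^ (j + 1)) ≤ B := by
          rw [hhalf]; nlinarith
        linarith
      set K : ℕ := 2 ^ j * K₀ with hK
      have hK1 : 1 ≤ K := Nat.one_le_iff_ne_zero.2 (by positivity)
      have hKr : (K : ℝ) = 2 ^ j * K₀ := by rw [hK]; push_cast; ring
      have hKpos : (0 : ℝ) < K := by exact_mod_cast hK1
      set δ : ℝ := 2 * √d * r / K with hδ
      have hδpos : 0 < δ := by positivity
      have hδd : a + d * δ = b := by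
        have : (d : ℝ) * δ = b - a := by
          rw [hab, hB, hδ, hKr]; field_simp; ring
        linarith
      have inner : ∀ i : ℕ, i ≤ d → 2 ^ i * (2 * (3 * (K : ℝ)) ^ d * r) ≤ len S x (a + i * δ) := by
        intro i
        induction i with
        | zero =>
          intro _
          rw [hKr]
          simpa using ih
        | succ i ihi =>
          intro hi
          have h1 := ihi (by omega)
          have hi' : ((i + 1 : ℕ) : ℝ) ≤ d := by exact_mod_cast hi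
          push_cast at hi'
          have hbase : 2 * (3 * (K : ℝ)) ^ d * r ≤ len S x (a + i * δ) := by
            refine le_trans ?_ h1
            have h2 : (1 : ℝ) ≤ 2 ^ i := one_le_pow₀ (by norm_num)
            have h3 : 0 ≤ 2 * (3 * (K : ℝ)) ^ d * r := by positivity
            nlinarith
          have hi0 : 0 ≤ (i : ℝ) * δ := by positivity
          have h4 := dbl L hA hd hK1 (a := a + i * δ) (by linarith) (by
              rw [← hδ]; nlinarith) (fun ρ h5 h6 => hne ρ (by linarith) h6) hbase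
          have h5 : a + ((i + 1 : ℕ) : ℝ) * δ = a + i * δ + 2 * √d * r / K := by
            rw [← hδ]; push_cast; ring
          rw [h5]
          refine le_trans ?_ h4
          rw [pow_succ]
          nlinarith
      have h1 := inner d le_rfl
      rw [hδd] at h1
      refine le_trans (le_of_eq ?_) h1
      have h5 : (3 * (2 ^ (j + 1) * (K₀ : ℝ))) ^ d = 2 ^ d * (3 * (2 ^ j * K₀)) ^ d := by
        rw [← mul_pow]; congr 1; rw [pow_succ]; ring
      rw [h5, hKr]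
      ring
  -- contradiction
  have hfin := L.len_fin (ρ := ρ₀ + B) hstep.le
  have hle : ∀ j : ℕ, 2 * (3 * (2 ^ j * (K₀ : ℝ))) ^ d * r ≤ len S x (ρ₀ + B) := by
    intro j
    refine (key j).trans ?_
    have h2j : (0 : ℝ) < 1 / 2 ^ j := by positivity
    have := L.len_growth (a := ρ₀ + B * (1 - 1 / 2 ^ j)) (b := ρ₀ + B)
      (by nlinarith) hstep.le 0 (fun _ _ => by simp)
    simpa using this
  have htend : Tendsto (fun j : ℕ => (2 : ℝ) ^ j) atTop atTop :=
    tendsto_pow_atTop_atTop_of_one_lt (by norm_num)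
  obtain ⟨j, hj⟩ := (htend.eventually_gt_atTop (len S x (ρ₀ + B) / r)).exists
  have h1 := hle j
  have h2 : (2 : ℝ) ^ j ≤ 2 * (3 * (2 ^ j * (K₀ : ℝ))) ^ d := by
    have hK1 : (1 : ℝ) ≤ K₀ := by exact_mod_cast hK₀
    have h2j : (1 : ℝ) ≤ 2 ^ j := one_le_pow₀ (by norm_num)
    have h3 : (2 : ℝ) ^ j ≤ 3 * (2 ^ j * K₀) := by nlinarith
    have h4 : (1 : ℝ) ≤ 3 * (2 ^ j * K₀) := h2j.trans h3
    have h5 : 3 * (2 ^ j * (K₀ : ℝ)) ≤ (3 * (2 ^ j * K₀)) ^ d := le_self_pow₀ h4 (by omega)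
    linarith
  rw [div_lt_iff₀ hr] at hj
  have h3 : (2 : ℝ) ^ j * r ≤ 2 * (3 * (2 ^ j * (K₀ : ℝ))) ^ d * r :=
    mul_le_mul_of_nonneg_right h2 hr.le
  linarith

/-- uniform bound for the length in concentric balls -/
theorem len_bound2 {d : ℕ} (hd : 1 ≤ d) {A S : Set (E d)} {x : E d} {r : ℝ} (L : LocAdm A S x r)
    (hA : IsClosed A) {ρ₀ : ℝ} (h0 : 0 < ρ₀) (hρ : ρ₀ < r)
    (hne : ∀ ρ, ρ₀ ≤ ρ → ρ < r → (S ∩ sphere x ρ).Nonempty) :
    len S x ρ₀ ≤ 2 * (3 * ((4 * d * √d + 1) / (1 - ρ₀ / r))) ^ d * r := by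
  have hr := L.rpos
  have hdpos : (0 : ℝ) < √d := Real.sqrt_pos.2 (by exact_mod_cast hd)
  have hd0 : (0 : ℝ) < d := by exact_mod_cast hd
  set q := 1 - ρ₀ / r with hq
  have hq0 : 0 < q := by rw [hq, sub_pos, div_lt_one hr]; exact hρ
  have hq1 : q < 1 := by rw [hq]; have : 0 < ρ₀ / r := by positivity
                         linarith
  set a : ℝ := 4 * d * √d with ha
  have hapos : 0 < a := by positivity
  set K₀ : ℕ := ⌊a / q⌋₊ + 1 with hK
  have h1 : a / q < K₀ := by rw [hK]; push_cast; exact Nat.lt_floor_add_one _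
  have h2 : (K₀ : ℝ) ≤ (a + 1) / q := by
    rw [hK]; push_cast
    have h3 := Nat.floor_le (a := a / q) (by positivity)
    have h4 : (1 : ℝ) ≤ 1 / q := by rw [le_div_iff₀ hq0]; linarith
    rw [add_div]; linarith
  have hK0 : (0 : ℝ) < K₀ := lt_trans (by positivity) h1
  have hstep : ρ₀ + 4 * d * √d * r / K₀ < r := by
    rw [← ha]
    rw [div_lt_iff₀ hq0] at h1
    have h3 : a * r / K₀ < q * r := by
      rw [div_lt_iff₀ hK0]; nlinarith
    have h4 : q * r = r - ρ₀ := by rw [hq]; field_simp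
    linarith
  have h5 := blowup2 L hA h0 K₀ (by omega) hstep hne hd
  refine h5.le.trans ?_
  refine mul_le_mul_of_nonneg_right ?_ hr.le
  gcongr

theorem general_bound2 {d : ℕ} {A S : Set (E d)} {x : E d} {r : ℝ} (hd : 1 ≤ d)
    (hL : LocAdm A S x r) (hA : IsClosed A) {t : ℝ} (ht0 : 0 < t)
    (ht1 : t < 1) (Y : Finset (E d)) (hY : Y.Nonempty) (hb : ∀ y ∈ Y, y ∈ ball x (t * r))
    (hT : ∀ y ∈ Y, ∃ u ε, Tri S y u ε) :
    ((Y.card : ℝ) + 2) ≤ 4 * (6 * ((4 * d * √d + 1) / (1 - t))) ^ d / (1 - t) := by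
  have hr := hL.rpos
  have h1t : 0 < 1 - t := by linarith
  set ρ : ℝ := (1 + t) / 2 * r with hρ
  have hρr : ρ < r := by rw [hρ]; nlinarith
  have htρ : t * r < ρ := by rw [hρ]; nlinarith
  have hρ0 : 0 < ρ := by rw [hρ]; positivity
  have hcount : ∀ s, t * r ≤ s → s < r → ((Y.card + 2 : ℕ) : ℕ∞) ≤ (S ∩ sphere x s).encard :=
    fun s h1 h2 => hL.sphere_count hA Y hY hb hT h1 h2
  have hne : ∀ s, t * r ≤ s → s < r → (S ∩ sphere x s).Nonempty := by
    intro s h1 h2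
    rw [← Set.encard_pos]
    refine lt_of_lt_of_le ?_ (hcount s h1 h2)
    exact_mod_cast Nat.succ_pos _
  have h1 := hL.len_growth htρ.le hρr.le (Y.card + 2) (fun s hs =>
    hcount s hs.1.le (hs.2.trans hρr))
  have h2 := len_bound2 hd hL hA hρ0 hρr (fun s h3 h4 => hne s (htρ.le.trans h3) h4)
  have h3 := len_nonneg S x (t * r)
  push_cast at h1
  have e1 : 1 - ρ / r = (1 - t) / 2 := by rw [hρ]; field_simp; ring
  have e2 : ρ - t * r = (1 - t) / 2 * r := by rw [hρ]; ring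
  rw [e1] at h2
  rw [e2] at h1
  have e3 : 3 * ((4 * (d : ℝ) * √d + 1) / ((1 - t) / 2)) = 6 * ((4 * d * √d + 1) / (1 - t)) := by
    field_simp; ring
  rw [e3] at h2
  have h4 : ((Y.card : ℝ) + 2) * ((1 - t) / 2) * r ≤
      2 * (6 * ((4 * d * √d + 1) / (1 - t))) ^ d * r := by linarith
  have h5 := le_of_mul_le_mul_right h4 hr
  rw [le_div_iff₀ h1t]
  linarith

/-- (UPB) -/
theorem upb {d : ℕ} (hd : 2 ≤ d) {t : ℝ} (ht0 : 0 < t) (ht1 : t < 1) :
    ∃ m : ℕ, Nloc d t = m ∧ (m : ℝ) ≤ (d / (1 - t)) ^ (8 * d) := by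
  have h1t : 0 < 1 - t := by linarith
  set X : ℝ := d / (1 - t) with hX
  have hd2 : (2 : ℝ) ≤ d := by exact_mod_cast hd
  have hXd : (d : ℝ) ≤ X := by
    rw [hX, le_div_iff₀ h1t]; nlinarith
  have hX2 : 2 ≤ X := hd2.trans hXd
  have hb : Nloc d t ≤ (⌊X ^ (8 * d)⌋₊ : ℕ) := by
    refine Nloc_le fun A S x r hL Y hY hb hT => Nat.le_floor ?_
    have h1 := general_bound2 (by omega) hL.adm hL.compact.isClosed ht0 ht1 Y hY hb hT
    have h2 : (4 * (d : ℝ) * √d + 1) / (1 - t) ≤ 5 * X ^ 2 := by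
      rw [div_le_iff₀ h1t]
      have h3 : √(d : ℝ) ≤ d := Real.sqrt_le_iff.2 ⟨by linarith, by nlinarith⟩
      have h4 : 0 ≤ √(d : ℝ) := Real.sqrt_nonneg _
      have h5 : 5 * X ^ 2 * (1 - t) = 5 * X * d := by
        have : X * (1 - t) = d := by rw [hX]; field_simp
        calc 5 * X ^ 2 * (1 - t) = 5 * X * (X * (1 - t)) := by ring
          _ = _ := by rw [this]
      rw [h5]
      nlinarith
    have h6 : 6 * ((4 * (d : ℝ) * √d + 1) / (1 - t)) ≤ X ^ 7 := by
      have h7 : (2 : ℝ) ^ 5 ≤ X ^ 5 := pow_le_pow_left₀ (by norm_num) hX2 5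
      have h8 : X ^ 7 = X ^ 5 * X ^ 2 := by ring
      rw [h8]
      nlinarith [sq_nonneg X]
    have h9 : 4 / (1 - t) ≤ X ^ 2 := by
      rw [div_le_iff₀ h1t]
      have : X * (1 - t) = d := by rw [hX]; field_simp
      nlinarith
    have h10 : (0 : ℝ) ≤ 6 * ((4 * (d : ℝ) * √d + 1) / (1 - t)) := by positivity
    calc (Y.card : ℝ) ≤ 4 * (6 * ((4 * d * √d + 1) / (1 - t))) ^ d / (1 - t) := by linarith
      _ = 4 / (1 - t) * (6 * ((4 * d * √d + 1) / (1 - t))) ^ d := by ring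
      _ ≤ X ^ 2 * (X ^ 7) ^ d := by
          refine mul_le_mul h9 (pow_le_pow_left₀ h10 h6 d) (by positivity) (by positivity)
      _ = X ^ (2 + 7 * d) := by rw [← pow_mul, ← pow_add]
      _ ≤ X ^ (8 * d) := pow_le_pow_right₀ (by linarith) (by omega)
  obtain ⟨m, hm⟩ := ENat.ne_top_iff_exists.1 (ne_top_of_le_ne_top (ENat.natCast_ne_top _) hb)
  refine ⟨m, hm.symm, ?_⟩
  rw [← hm] at hb
  have h1 : m ≤ ⌊X ^ (8 * d)⌋₊ := by exact_mod_cast hb
  exact (Nat.le_floor_iff (by positivity)).1 h1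

end LX
end H11ST
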